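import Pool.Agent.helper93.TV.Spec3

/-!
# Row tv:FDO: the types of a skeletal category
-/

set_option autoImplicit false

namespace Pool.Agent.helper93.TV

open BigOperators Finset

theorem FDO_single (C : SkelCat) (a b c : Fin C.r) (h : C.mult a b c = 1) :
    ∃ v, (C.s1 v = a ∧ C.s2 v = b ∧ C.t v = c) ∧
      ∀ w, C.s1 w = a → C.s2 w = b → C.t w = c → w = v := by
  unfold SkelCat.mult at h
  obtain ⟨v, hv⟩ := card_eq_one.mp h
  refine ⟨v, ?_, ?_⟩
  · have : v ∈ univ.filter (fun v => C.s1 v = a ∧ C.s2 v = b ∧ C.t v = c) := by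
      rw [hv]
      exact mem_singleton_self v
    exact (mem_filter.mp this).2
  · intro w h1 h2 h3
    have : w ∈ univ.filter (fun v => C.s1 v = a ∧ C.s2 v = b ∧ C.t v = c) :=
      mem_filter.mpr ⟨mem_univ _, h1, h2, h3⟩
    rw [hv] at this
    exact mem_singleton.mp this

theorem FDO_pos (C : SkelCat) (v : Fin C.n) : C.mult (C.s1 v) (C.s2 v) (C.t v) ≠ 0 := by
  unfold SkelCat.mult
  exact card_ne_zero.mpr ⟨v, mem_filter.mpr ⟨mem_univ _, rfl, rfl, rfl⟩⟩

theorem FDO : FDO_stmt := by
  intro C o d h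
  have hl : ∀ a, ∃ v, (C.s1 v = o ∧ C.s2 v = a ∧ C.t v = a) ∧
      ∀ w, C.s1 w = o → C.s2 w = a → C.t w = a → w = v := fun a =>
    FDO_single C o a a (by rw [h.unit_left, if_pos rfl])
  have hr : ∀ a, ∃ v, (C.s1 v = a ∧ C.s2 v = o ∧ C.t v = a) ∧
      ∀ w, C.s1 w = a → C.s2 w = o → C.t w = a → w = v := fun a =>
    FDO_single C a o a (by rw [h.unit_right, if_pos rfl])
  have he : ∀ a, ∃ v, (C.s1 v = a ∧ C.s2 v = d a ∧ C.t v = o) ∧
      ∀ w, C.s1 w = a → C.s2 w = d a → C.t w = o → w = v := fun a =>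
    FDO_single C a (d a) o (by rw [h.dual, if_pos rfl])
  choose lam hlam hlamu using hl
  choose rho hrho hrhou using hr
  choose eta heta hetau using he
  let D : FD (Fin C.r) (Fin C.n) :=
    { s1 := C.s1
      s2 := C.s2
      t := C.t
      o := o
      du := d
      lam := lam
      rho := rho
      eta := eta
      s1_lam := fun a => (hlam a).1
      s2_lam := fun a => (hlam a).2.1
      t_lam := fun a => (hlam a).2.2
      lam_unique := by
        intro v hv
        have h1 := FDO_pos C v
        rw [hv, h.unit_left] at h1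
        have h2 : C.s2 v = C.t v := by
          by_contra hne
          exact h1 (if_neg hne)
        exact hlamu (C.s2 v) v hv rfl h2.symm
      s1_rho := fun a => (hrho a).1
      s2_rho := fun a => (hrho a).2.1
      t_rho := fun a => (hrho a).2.2
      rho_unique := by
        intro v hv
        have h1 := FDO_pos C v
        rw [hv, h.unit_right] at h1
        have h2 : C.s1 v = C.t v := by
          by_contra hne
          exact h1 (if_neg hne)
        exact hrhou (C.s1 v) v rfl hv h2.symm
      s1_eta := fun a => (heta a).1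
      s2_eta := fun a => (heta a).2.1
      t_eta := fun a => (heta a).2.2
      eta_unique := by
        intro v hv
        have h1 := FDO_pos C v
        rw [hv, h.dual] at h1
        have h2 : C.s2 v = d (C.s1 v) := by
          by_contra hne
          exact h1 (if_neg hne)
        exact hetau (C.s1 v) v rfl h2 hv
      du_du := h.dual_dual }
  refine ⟨D, rfl, rfl, rfl, rfl, rfl, ?_⟩
  refine ⟨⟨⟨?_, ?_, ?_⟩, h.pentagon⟩, ?_, ?_⟩
  · intro l e e' l' hne
    exact ⟨h.supp l e e' l' hne, mem_univ _, mem_univ _⟩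
  · intro l e l₁ e₁ h1 _ _
    exact h.row l e l₁ e₁ h1
  · intro e' l' e₁ l₁ h1 _ _
    exact h.col e' l' e₁ l₁ h1
  · intro γ δ
    exact h.triangle (rho (C.s1 γ)) (lam (C.s2 γ)) γ δ (hrho _).2.1 (hlam _).1 (hrho _).1.symm
      (hlam _).2.1.symm
  · intro a
    exact h.rigid a (eta a) (lam a) (eta (d a)) (rho a) (heta a).1 (heta a).2.2 (hlam a).1
      (hlam a).2.1 (heta (d a)).1 (heta (d a)).2.2 (hrho a).1 (hrho a).2.1

end Pool.Agent.helper93.TV
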